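import Pool.Agent.U996.GB.TupleAe
import Pool.Agent.U996.GB.Sq

/-!
# Representations `n = k + m` with `⌊α₀ p_k²⌋ + h₀`, `⌊α₁ p_m²⌋ + h₁`, `⌊α₂ p_{p_m}²⌋ + h₂` prime

For almost every vector of positive real numbers `α₀, α₁, α₂` and all integers `h₀, h₁, h₂`: the asymptotic formula for
the number of representations, for all `n` in any given sparse set of targets (for instance the powers of two) and for
all `n` in any given set outside a small exceptional set; `k` may be restricted to arbitrary given sets.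
-/

set_option autoImplicit false

namespace Pool.Agent.Results.MP_04ff0f_nt.AlmostAllSums

open Finset MeasureTheory Filter Topology

/-- `z` is a (positive) prime number -/
def IsPrime (z : ℤ) : Prop := z.toNat.Prime

/-- the `k`-th prime, `k ≥ 1` -/
noncomputable def p (k : ℕ) : ℕ := Nat.nth Nat.Prime (k - 1)

/-- the number of pairs of positive integers `k`, `m` with `k + m = n`, `k ∈ S`, such that `⌊α₀ p_k²⌋ + h₀`,
`⌊α₁ p_m²⌋ + h₁` and `⌊α₂ p_{p_m}²⌋ + h₂` are prime -/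
noncomputable def reps (α : Fin 3 → ℝ) (h : Fin 3 → ℤ) (S : Set ℕ) (n : ℕ) : ℕ :=
  Set.ncard {k : ℕ | 1 ≤ k ∧ k < n ∧ k ∈ S ∧ IsPrime (⌊α 0 * (p k : ℝ) ^ 2⌋ + h 0) ∧
    IsPrime (⌊α 1 * (p (n - k) : ℝ) ^ 2⌋ + h 1) ∧ IsPrime (⌊α 2 * (p (p (n - k)) : ℝ) ^ 2⌋ + h 2)}

/-- the number of pairs of positive integers `k`, `m` with `k + m = n`, `k ∈ S` -/
noncomputable def pairs (S : Set ℕ) (n : ℕ) : ℕ := Set.ncard {k : ℕ | 1 ≤ k ∧ k < n ∧ k ∈ S}

/-- the members of `𝒩` in `[2 ^ i, 2 ^ (i + 1))` -/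
def block (𝒩 : Set ℕ) (i : ℕ) : Set ℕ := {n | n ∈ 𝒩 ∧ 2 ^ i ≤ n ∧ n < 2 ^ (i + 1)}

open Pool.Agent.U996.UW Pool.Agent.U996.GB

open Classical in
/-- the index set -/
noncomputable def T (S : ℕ → Set ℕ) (n : ℕ) : Finset ℕ := (Icc 1 (n - 1)).filter fun k => k ∈ S n

lemma mem_T (S : ℕ → Set ℕ) (n k : ℕ) : k ∈ T S n ↔ (1 ≤ k ∧ k ≤ n - 1) ∧ k ∈ S n := by
  classical
  unfold T
  rw [mem_filter, mem_Icc]

/-- the points -/
noncomputable def x (i : Fin 3) (n k : ℕ) : ℕ := if i = 0 then P k else if i = 1 then P (n - k) else P (P (n - k))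

lemma x0 (n k : ℕ) : x 0 n k = P k := rfl
lemma x1 (n k : ℕ) : x 1 n k = P (n - k) := rfl
lemma x2 (n k : ℕ) : x 2 n k = P (P (n - k)) := rfl

lemma pairs_eq (S : ℕ → Set ℕ) (n : ℕ) : pairs (S n) n = (T S n).card := by
  classical
  have e1 : {k : ℕ | 1 ≤ k ∧ k < n ∧ k ∈ S n} = ((T S n : Finset ℕ) : Set ℕ) := by
    ext k
    unfold T
    simp only [Set.mem_ofPred_eq, Finset.coe_filter, Finset.mem_Icc]
    constructor
    · rintro ⟨a, b, c⟩
      exact ⟨⟨a, by omega⟩, c⟩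
    · rintro ⟨⟨a, b⟩, c⟩
      exact ⟨a, by omega, c⟩
  unfold pairs
  rw [e1, Set.ncard_coe_finset]

lemma reps_eq (α : Fin 3 → ℝ) (h : Fin 3 → ℤ) (S : ℕ → Set ℕ) (n : ℕ) :
    (reps α h (S n) n : ℝ) = ∑ k ∈ T S n, ∏ j, pz (⌊α j * (x j n k : ℝ) ^ (2 : ℝ)⌋ + h j) := by
  classical
  have e1 : {k : ℕ | 1 ≤ k ∧ k < n ∧ k ∈ S n ∧ IsPrime (⌊α 0 * (p k : ℝ) ^ 2⌋ + h 0) ∧
      IsPrime (⌊α 1 * (p (n - k) : ℝ) ^ 2⌋ + h 1) ∧ IsPrime (⌊α 2 * (p (p (n - k)) : ℝ) ^ 2⌋ + h 2)} =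
      (((T S n).filter fun k => IsPrime (⌊α 0 * (p k : ℝ) ^ 2⌋ + h 0) ∧
      IsPrime (⌊α 1 * (p (n - k) : ℝ) ^ 2⌋ + h 1) ∧ IsPrime (⌊α 2 * (p (p (n - k)) : ℝ) ^ 2⌋ + h 2) :
        Finset ℕ) : Set ℕ) := by
    ext k
    unfold T
    simp only [Set.mem_ofPred_eq, Finset.coe_filter, Finset.mem_filter, Finset.mem_Icc]
    constructor
    · rintro ⟨a, b, c, d⟩
      exact ⟨⟨⟨a, by omega⟩, c⟩, d⟩
    · rintro ⟨⟨⟨a, b⟩, c⟩, d⟩
      exact ⟨a, by omega, c, d⟩
  unfold reps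
  rw [e1, Set.ncard_coe_finset, Finset.card_filter]
  push_cast
  refine Finset.sum_congr rfl fun k _ => ?_
  rw [Fin.prod_univ_three, x0, x1, x2]
  simp only [Real.rpow_two]
  unfold IsPrime pz p P
  by_cases h0 : (⌊α 0 * ((Nat.nth Nat.Prime (k - 1) : ℕ) : ℝ) ^ 2⌋ + h 0).toNat.Prime
  · by_cases h1 : (⌊α 1 * ((Nat.nth Nat.Prime (n - k - 1) : ℕ) : ℝ) ^ 2⌋ + h 1).toNat.Prime
    · by_cases h2 : (⌊α 2 * ((Nat.nth Nat.Prime (Nat.nth Nat.Prime (n - k - 1) - 1) : ℕ) : ℝ) ^ 2⌋ +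
        h 2).toNat.Prime
      · rw [if_pos ⟨h0, h1, h2⟩, if_pos h0, if_pos h1, if_pos h2]
        norm_num
      · rw [if_neg (fun hh => h2 hh.2.2), if_neg h2, mul_zero]
    · rw [if_neg (fun hh => h1 hh.2.1), if_neg h1, mul_zero, zero_mul]
  · rw [if_neg (fun hh => h0 hh.1), if_neg h0, zero_mul, zero_mul]

/-- the main term -/
lemma main_lim (α : Fin 3 → ℝ) (hα : ∀ i, 0 < α i) (h : Fin 3 → ℤ) (S : ℕ → Set ℕ) (B : ℕ)
    (hS : ∀ᶠ n : ℕ in atTop, (n : ℝ) / Real.log n ^ B ≤ pairs (S n) n) :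
    Tendsto (fun n : ℕ => (∑ k ∈ T S n, ∏ j, rz (⌊α j * (x j n k : ℝ) ^ (2 : ℝ)⌋ + h j)) * Real.log n ^ 3 /
      pairs (S n) n) atTop (𝓝 (1 / 8)) := by
  have h1 := sum_lim (T S) (fun _ _ => 1) (fun n k => ∏ j, rz (⌊α j * (x j n k : ℝ) ^ (2 : ℝ)⌋ + h j))
    (fun _ _ => zero_le_one) (fun _ _ => le_rfl) (fun n k => Finset.prod_nonneg fun j _ => rz_nonneg _)
    (fun n k => Finset.prod_le_one (fun j _ => rz_nonneg _) fun j _ => rz_le_one _) 3 B (B + 4) (1 / 8) 2
    (by norm_num) (by norm_num) (by omega) (by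
      filter_upwards [hS] with n hn
      rw [pairs_eq] at hn
      simpa using hn) ?_
  · refine h1.congr fun n => ?_
    rw [pairs_eq]
    simp
  intro ε hε
  obtain ⟨e, he⟩ : ∃ e : ℝ, e = min (1 / 2) (ε / 2) := ⟨_, rfl⟩
  have he0 : 0 < e := by rw [he]; positivity
  have he1 : e ≤ 1 / 2 := by rw [he]; exact min_le_left _ _
  have he2 : 2 * e ≤ ε := by
    have : e ≤ ε / 2 := by rw [he]; exact min_le_right _ _
    linarith
  have f0 := rz_seq (fun n => (P n : ℝ)) P_top' P_log 2 (by norm_num) (α 0) (hα 0) (h 0)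
  have f1 := rz_seq (fun n => (P n : ℝ)) P_top' P_log 2 (by norm_num) (α 1) (hα 1) (h 1)
  have f2 := rz_seq (fun n => (P (P n) : ℝ)) PP_top' PP_log 2 (by norm_num) (α 2) (hα 2) (h 2)
  rw [Nat.cast_ofNat] at f0 f1 f2
  have u0 := unif (fun n => rz (⌊α 0 * (P n : ℝ) ^ 2⌋ + h 0)) 1 (B + 4) (1 / 2)
    (by simpa only [pow_one] using f0) e he0
  have u1 := unif (fun n => rz (⌊α 1 * (P n : ℝ) ^ 2⌋ + h 1)) 1 (B + 4) (1 / 2)
    (by simpa only [pow_one] using f1) e he0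
  have u2 := unif (fun n => rz (⌊α 2 * (P (P n) : ℝ) ^ 2⌋ + h 2)) 1 (B + 4) (1 / 2)
    (by simpa only [pow_one] using f2) e he0
  filter_upwards [u0, u1, u2, nlog.eventually_ge_atTop 1] with n v0 v1 v2 hl
  have hV : 0 ≤ (n : ℝ) / Real.log n ^ (B + 4) := by positivity
  have hsub : ((T S n).filter fun k => ε < |(∏ j, rz (⌊α j * (x j n k : ℝ) ^ (2 : ℝ)⌋ + h j)) *
      Real.log n ^ 3 - 1 / 8|) ⊆
      ((Icc 1 (n - 1)).filter fun s : ℕ => (s : ℝ) < n / Real.log n ^ (B + 4)) ∪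
      ((Icc 1 (n - 1)).filter fun s : ℕ => ((n - s : ℕ) : ℝ) < n / Real.log n ^ (B + 4)) := by
    intro k hk
    rw [mem_filter, mem_T] at hk
    rw [mem_union, mem_filter, mem_filter]
    obtain ⟨⟨hk0, _⟩, hk2⟩ := hk
    have hk1 : k ∈ Icc 1 (n - 1) := mem_Icc.2 hk0
    by_contra hcon
    push Not at hcon
    obtain ⟨c1, c2⟩ := hcon
    have d1 := c1 hk1
    have d2 := c2 hk1
    rw [mem_Icc] at hk1
    have w0 := v0 k d1 (by omega)
    have w1 := v1 (n - k) d2 (by omega)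
    have w2 := v2 (n - k) d2 (by omega)
    simp only [pow_one] at w0 w1 w2
    have h3 := tri _ _ _ e he0.le he1 w0 w1 w2
    have e1 : (∏ j, rz (⌊α j * (x j n k : ℝ) ^ (2 : ℝ)⌋ + h j)) * Real.log n ^ 3 =
        rz (⌊α 0 * (P k : ℝ) ^ 2⌋ + h 0) * Real.log n * (rz (⌊α 1 * (P (n - k) : ℝ) ^ 2⌋ + h 1) * Real.log n) *
        (rz (⌊α 2 * (P (P (n - k)) : ℝ) ^ 2⌋ + h 2) * Real.log n) := by
      rw [Fin.prod_univ_three, x0, x1, x2]
      simp only [Real.rpow_two]
      ring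
    rw [e1] at hk2
    linarith
  have h3 := Finset.card_le_card hsub
  have h4 := h3.trans (Finset.card_union_le _ _)
  have h5 := few_small n _ hV
  have h6 := few_big n _ hV
  have h7 : (((T S n).filter fun k => ε < |(∏ j, rz (⌊α j * (x j n k : ℝ) ^ (2 : ℝ)⌋ + h j)) *
      Real.log n ^ 3 - 1 / 8|).card : ℝ) ≤
      (((Icc 1 (n - 1)).filter fun s : ℕ => (s : ℝ) < n / Real.log n ^ (B + 4)).card : ℝ) +
      (((Icc 1 (n - 1)).filter fun s : ℕ => ((n - s : ℕ) : ℝ) < n / Real.log n ^ (B + 4)).card : ℝ) := by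
    exact_mod_cast h4
  linarith

/-- Let `𝒩` be any set of targets and let `S n ⊆ [1, n)` be any sets with at least `n / (log n) ^ B` elements (for
instance all of `[1, n)`). For almost every vector of positive real numbers `α₀, α₁, α₂` and all integers
`h₀, h₁, h₂`:

(1) for all `ε > 0` and `K` and all large `i`, at most `|block| / i ^ K` members `n` of the block of the members of `𝒩`
in `[2 ^ i, 2 ^ (i + 1))` violate `|reps n (log n) ^ 3 / pairs n - 1 / 8| ≤ ε`;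

(2) if `𝒩` has at most `i ^ A` members in `[2 ^ i, 2 ^ (i + 1))` for some `A` and all large `i` (for instance if `𝒩` is
the set of the powers of two), then `reps n (log n) ^ 3 / pairs n` tends to `1 / 8` as `n` runs through `𝒩`; in
particular all large `n ∈ 𝒩` have such a representation. -/
theorem result (𝒩 : Set ℕ) (S : ℕ → Set ℕ) (B : ℕ)
    (hS : ∀ᶠ n : ℕ in atTop, (n : ℝ) / Real.log n ^ B ≤ pairs (S n) n) :
    ∀ᵐ α : Fin 3 → ℝ, (∀ i, 0 < α i) → ∀ h : Fin 3 → ℤ,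
      (∀ ε : ℝ, 0 < ε → ∀ K : ℕ, ∀ᶠ i : ℕ in atTop,
        (Set.ncard {n | n ∈ block 𝒩 i ∧
          ε < |(reps α h (S n) n : ℝ) * Real.log n ^ 3 / pairs (S n) n - 1 / 8|} : ℝ) ≤
          Set.ncard (block 𝒩 i) / (i : ℝ) ^ K) ∧
      ((∃ A : ℕ, ∀ᶠ i : ℕ in atTop, Set.ncard (block 𝒩 i) ≤ i ^ A) →
        Tendsto (fun n : ℕ => (reps α h (S n) n : ℝ) * Real.log n ^ 3 / pairs (S n) n) (atTop ⊓ 𝓟 𝒩)
          (𝓝 (1 / 8)) ∧
        ∀ᶠ n : ℕ in atTop, n ∈ 𝒩 → ∃ k m : ℕ, 0 < k ∧ 0 < m ∧ k + m = n ∧ k ∈ S n ∧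
          IsPrime (⌊α 0 * (p k : ℝ) ^ 2⌋ + h 0) ∧ IsPrime (⌊α 1 * (p m : ℝ) ^ 2⌋ + h 1) ∧
          IsPrime (⌊α 2 * (p (p m) : ℝ) ^ 2⌋ + h 2)) := by
  have hmeas : MeasurableSet {α : Fin 3 → ℝ | ∀ i, 0 < α i} := pos_meas 3
  have hae := tuple_ae 2 (fun _ => 2) (fun _ => by norm_num) (T S) (fun _ _ => 1) (fun _ _ => by simp) x
    (fun n => P (P n)) (by
      intro i n s hs
      rw [mem_T] at hs
      have a1 := P_ge s hs.1.1
      have a2 := P_ge (n - s) (by omega)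
      have a3 := P_ge (P (n - s)) (by omega)
      have a4 : P s ≤ P n := P_mono (by omega)
      have a5 : P (n - s) ≤ P n := P_mono (by omega)
      have a6 : P (P (n - s)) ≤ P (P n) := P_mono a5
      have a7 := P_ge (P n) (by omega)
      unfold x
      split_ifs
      · exact ⟨by omega, by omega⟩
      · exact ⟨by omega, by omega⟩
      · exact ⟨by omega, a6⟩) (by
      intro i n s hs t ht hst
      rw [mem_T] at hs ht
      have inj : ∀ a b : ℕ, 1 ≤ a → 1 ≤ b → P a = P b → a = b := by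
        intro a b ha hb hab
        rcases lt_trichotomy a b with h1 | h1 | h1
        · exact absurd hab (P_lt ha h1).ne
        · exact h1
        · exact absurd hab (P_lt hb h1).ne'
      unfold x at hst
      split_ifs at hst
      · exact inj s t hs.1.1 ht.1.1 hst
      · have := inj _ _ (by omega) (by omega) hst
        omega
      · have b1 := P_ge (n - s) (by omega)
        have b2 := P_ge (n - t) (by omega)
        have := inj _ _ (by omega) (by omega) (inj _ _ (by omega) (by omega) hst)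
        omega) 32 2 PP_le 𝒩
  rw [ae_restrict_iff' hmeas] at hae
  filter_upwards [hae] with α hα hpos h
  have key : ∀ ε : ℝ, 0 < ε → ∀ K : ℕ, ∀ᶠ i : ℕ in atTop,
      (((dy 𝒩 i).filter fun n : ℕ => ε < |(reps α h (S n) n : ℝ) * Real.log n ^ 3 / pairs (S n) n -
        1 / 8|).card : ℝ) * i ^ K ≤ (dy 𝒩 i).card := by
    intro ε hε K
    have h1 := hα hpos h (K + B + 4)
    have h2 := (main_lim α hpos h S B hS)
    have h3 : ∀ᶠ n : ℕ in atTop, |(∑ k ∈ T S n, ∏ j, rz (⌊α j * (x j n k : ℝ) ^ (2 : ℝ)⌋ + h j)) *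
        Real.log n ^ 3 / pairs (S n) n - 1 / 8| < ε / 2 := by
      have := (Metric.tendsto_nhds.1 h2) (ε / 2) (by positivity)
      simpa only [Real.dist_eq] using this
    have h4 : Tendsto (fun n : ℕ => (1 : ℝ) / Real.log n) atTop (𝓝 0) := nlog.const_div_atTop _
    have h5 : ∀ᶠ n : ℕ in atTop, (1 : ℝ) / Real.log n < ε / 2 := h4.eventually (gt_mem_nhds (by positivity))
    obtain ⟨n1, hn1⟩ := ((h3.and h5).and ((hS.and (nlog.eventually_ge_atTop 1)).and
      (eventually_ge_atTop 2))).exists_forall_of_atTop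
    filter_upwards [h1, eventually_ge_atTop (n1 + 1)] with i hi hi1
    refine le_trans ?_ hi
    have hir : (1 : ℝ) ≤ i := by exact_mod_cast (by omega : 1 ≤ i)
    refine mul_le_mul ?_ (pow_le_pow_right₀ hir (by omega)) (by positivity) (Nat.cast_nonneg _)
    have hsub : ((dy 𝒩 i).filter fun n : ℕ => ε < |(reps α h (S n) n : ℝ) * Real.log n ^ 3 / pairs (S n) n -
        1 / 8|) ⊆ ((dy 𝒩 i).filter fun n : ℕ => (n : ℝ) / Real.log n ^ (K + B + 4) <
          |er3 α (fun _ => 2) h (T S n) (fun _ => 1) (fun i => x i n)|) := by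
      intro n hn
      rw [mem_filter] at hn ⊢
      refine ⟨hn.1, ?_⟩
      have hin : n1 ≤ n := by
        have h6 := hn.1
        classical
        unfold dy at h6
        rw [mem_filter, mem_Ico] at h6
        have h7 : i < 2 ^ i := Nat.lt_two_pow_self
        omega
      obtain ⟨⟨b1, b2⟩, ⟨b3, b4⟩, b5⟩ := hn1 n hin
      have hn0 : (0 : ℝ) < n := by exact_mod_cast (by omega : 0 < n)
      have hl0 : 0 < Real.log n := by linarith
      have hp0 : (0 : ℝ) < pairs (S n) n := lt_of_lt_of_le (by positivity) b3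
      by_contra hcon
      rw [not_lt] at hcon
      have e1 : (reps α h (S n) n : ℝ) * Real.log n ^ 3 / pairs (S n) n - 1 / 8 =
          ((∑ k ∈ T S n, ∏ j, rz (⌊α j * (x j n k : ℝ) ^ (2 : ℝ)⌋ + h j)) * Real.log n ^ 3 /
            pairs (S n) n - 1 / 8) +
          er3 α (fun _ => 2) h (T S n) (fun _ => 1) (fun i => x i n) * Real.log n ^ 3 / pairs (S n) n := by
        rw [reps_eq]
        unfold er3
        simp only [one_mul, Finset.sum_sub_distrib]
        ring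
      have h8 : |er3 α (fun _ => 2) h (T S n) (fun _ => 1) (fun i => x i n) * Real.log n ^ 3 /
          pairs (S n) n| ≤ 1 / Real.log n := by
        rw [abs_div, abs_mul, abs_of_pos hp0, abs_of_pos (show 0 < Real.log n ^ 3 by positivity)]
        calc |er3 α (fun _ => 2) h (T S n) (fun _ => 1) (fun i => x i n)| * Real.log n ^ 3 / pairs (S n) n ≤
              (n / Real.log n ^ (K + B + 4)) * Real.log n ^ 3 / (n / Real.log n ^ B) := by
              apply div_le_div₀ (by positivity) (mul_le_mul_of_nonneg_right hcon (by positivity))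
                (by positivity) b3
          _ = 1 / Real.log n ^ (K + 1) := by
              rw [show K + B + 4 = (K + 1) + B + 3 by ring, pow_add _ (K + 1 + B) 3, pow_add _ (K + 1) B]
              field_simp
          _ ≤ 1 / Real.log n ^ 1 := one_div_le_one_div_of_le (by positivity) (pow_le_pow_right₀ b4 (by omega))
          _ = _ := by rw [pow_one]
      have h9 := hn.2
      rw [e1] at h9
      have h10 := abs_add_le ((∑ k ∈ T S n, ∏ j, rz (⌊α j * (x j n k : ℝ) ^ (2 : ℝ)⌋ + h j)) *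
        Real.log n ^ 3 / pairs (S n) n - 1 / 8)
        (er3 α (fun _ => 2) h (T S n) (fun _ => 1) (fun i => x i n) * Real.log n ^ 3 / pairs (S n) n)
      linarith
    exact_mod_cast Finset.card_le_card hsub
  have hblock : ∀ i, block 𝒩 i = ((dy 𝒩 i : Finset ℕ) : Set ℕ) := by
    intro i
    classical
    ext n
    unfold block dy
    simp only [Set.mem_ofPred_eq, Finset.coe_filter, Finset.mem_Ico]
    tauto
  have hcard : ∀ i, Set.ncard (block 𝒩 i) = (dy 𝒩 i).card := fun i => by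
    rw [hblock, Set.ncard_coe_finset]
  refine ⟨fun ε hε K => ?_, ?_⟩
  · filter_upwards [key ε hε K, eventually_ge_atTop 1] with i hi hi1
    have hi0 : (0 : ℝ) < i := by exact_mod_cast hi1
    have e1 : {n | n ∈ block 𝒩 i ∧ ε < |(reps α h (S n) n : ℝ) * Real.log n ^ 3 / pairs (S n) n - 1 / 8|} =
        (((dy 𝒩 i).filter fun n : ℕ => ε < |(reps α h (S n) n : ℝ) * Real.log n ^ 3 / pairs (S n) n -
        1 / 8| : Finset ℕ) : Set ℕ) := by
      ext n
      rw [hblock i]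
      simp only [Set.mem_ofPred_eq, Finset.coe_filter, Finset.mem_coe]
    rw [e1, Set.ncard_coe_finset, hcard, le_div_iff₀ (by positivity)]
    exact hi
  · rintro ⟨A, hA⟩
    have hev : ∀ ε : ℝ, 0 < ε → ∀ᶠ n : ℕ in atTop, n ∈ 𝒩 →
        |(reps α h (S n) n : ℝ) * Real.log n ^ 3 / pairs (S n) n - 1 / 8| ≤ ε := by
      intro ε hε
      obtain ⟨i1, hi1⟩ := ((key ε hε (A + 1)).and (hA.and (eventually_ge_atTop 2))).exists_forall_of_atTop
      filter_upwards [eventually_ge_atTop (2 ^ i1), eventually_ge_atTop 1] with n hn hn1 hnN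
      obtain ⟨i, hi⟩ : ∃ i, i = Nat.log 2 n := ⟨_, rfl⟩
      have hii : i1 ≤ i := by
        rw [hi]
        exact Nat.le_log_of_pow_le (by norm_num) hn
      obtain ⟨c1, c2, c3⟩ := hi1 i hii
      by_contra hcon
      rw [not_le] at hcon
      have hmem : n ∈ (dy 𝒩 i).filter fun n : ℕ => ε < |(reps α h (S n) n : ℝ) * Real.log n ^ 3 /
          pairs (S n) n - 1 / 8| := by
        classical
        rw [mem_filter]
        refine ⟨?_, hcon⟩
        unfold dy
        rw [mem_filter, mem_Ico, hi]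
        exact ⟨⟨Nat.pow_log_le_self 2 (by omega), Nat.lt_pow_succ_log_self (by norm_num) n⟩, hnN⟩
      have h6 : (1 : ℝ) ≤ (((dy 𝒩 i).filter fun n : ℕ => ε < |(reps α h (S n) n : ℝ) * Real.log n ^ 3 /
          pairs (S n) n - 1 / 8|).card : ℝ) := by
        exact_mod_cast Finset.card_pos.2 ⟨n, hmem⟩
      have hi2 : (2 : ℝ) ≤ i := by exact_mod_cast c3
      have h7 : ((dy 𝒩 i).card : ℝ) ≤ (i : ℝ) ^ A := by
        rw [hcard] at c2
        exact_mod_cast c2
      have h8 : (i : ℝ) ^ (A + 1) ≤ (i : ℝ) ^ A := by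
        calc (i : ℝ) ^ (A + 1) = 1 * (i : ℝ) ^ (A + 1) := (one_mul _).symm
          _ ≤ _ := mul_le_mul_of_nonneg_right h6 (by positivity)
          _ ≤ _ := c1.trans h7
      have h9 : (0 : ℝ) < (i : ℝ) ^ A := by positivity
      rw [pow_succ] at h8
      nlinarith
    refine ⟨?_, ?_⟩
    · rw [Metric.tendsto_nhds]
      intro ε hε
      rw [eventually_inf_principal]
      filter_upwards [hev (ε / 2) (by positivity)] with n hn hnN
      rw [Real.dist_eq]
      linarith [hn hnN]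
    · filter_upwards [hev (1 / 16) (by norm_num)] with n hn hnN
      have h6 := hn hnN
      have h7 : 0 < reps α h (S n) n := by
        rcases Nat.eq_zero_or_pos (reps α h (S n) n) with h0 | h0
        · rw [h0] at h6
          norm_num at h6
        · exact h0
      unfold reps at h7
      obtain ⟨k, hk1, hk2, hk3, hk4, hk5, hk6⟩ := Set.nonempty_of_ncard_ne_zero h7.ne'
      exact ⟨k, n - k, by omega, by omega, by omega, hk3, hk4, hk5, hk6⟩

end Pool.Agent.Results.MP_04ff0f_nt.AlmostAllSums
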