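import Pool.Agent.U918.LP.Seq

/-!
# `p_{p_m}² + h` prime for almost all `h`, with arbitrary weights on the `m`

The question asks for `n = k + m` with `p_k² - 2`, `p_m² - 2` and `p_{p_m}² - 2` prime (`p_j` is the `j`-th prime). Let `w`
be ANY bounded real weight on the integers `m ≥ 1`, for example, for a given `n`, the indicator of the `m < n` for which
`p_{n - m}² - 2` and `p_m² - 2` are prime, so that two conditions of the question are kept. For all but a share
`log ^ (-U) X` of the vectors `(h₁, …, h_r)` of integers `1 ≤ h_i ≤ B X²`, the sum of `w m` over the `m` with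
`p_{p_m} ≤ y` for which all the numbers `p_{p_m}² + h_i` are prime is the sum of
`w m ∏ 1 / (V z log (p_{p_m}² + h_i))` over those `m` for which all the numbers `p_{p_m}² + h_i` are free of primes
`≤ z`, up to an error `X / log ^ D X`; here `z` is a power of `log X`, `V z = ∏_{l ≤ z} (1 - 1/l)`, and this holds
simultaneously for all `y ≤ X` and all residue classes of `p_{p_m}` to all moduli up to `log ^ K X`.
-/

set_option autoImplicit false

open Finset

namespace Pool.Agent.Results.MP_04ff0f_nt.ArbitraryWeights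

/-- the product of `1 - 1/l` over the primes `l ≤ z` -/
noncomputable def V (z : ℕ) : ℝ := ∏ l ∈ (Icc 1 z).filter Nat.Prime, (1 - 1 / (l : ℝ))

/-- the `m`-th prime -/
noncomputable def p (m : ℕ) : ℕ := Nat.nth Nat.Prime (m - 1)

/-- the `p_m`-th prime `p_{p_m}` -/
noncomputable def s (m : ℕ) : ℕ := p (p m)

open Classical in
/-- the sum of `w m` over the `m ≥ 1` with `s m ≤ y`, `s m ≡ a mod q`, for which all the numbers `(s m)² + h i` are prime
(here `m ≤ s m`) -/
noncomputable def primeSum {r : ℕ} (w : ℕ → ℝ) (h : Fin r → ℕ) (q a y : ℕ) : ℝ :=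
  ∑ m ∈ (Icc 1 y).filter (fun m => s m ≤ y ∧ s m ≡ a [MOD q] ∧ ∀ i, (s m ^ 2 + h i).Prime), w m

open Classical in
/-- the sum of `w m / ∏ (V z · log ((s m)² + h i))` over the `m ≥ 1` with `s m ≤ y`, `s m ≡ a mod q`, for which no prime
`l ≤ z` divides any of the numbers `(s m)² + h i` -/
noncomputable def modelSum {r : ℕ} (z : ℕ) (w : ℕ → ℝ) (h : Fin r → ℕ) (q a y : ℕ) : ℝ :=
  ∑ m ∈ (Icc 1 y).filter (fun m => s m ≤ y ∧ s m ≡ a [MOD q] ∧ ∀ i, ∀ l : ℕ, l.Prime → l ≤ z → ¬ l ∣ s m ^ 2 + h i),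
    w m * ∏ i, (V z * Real.log ((s m ^ 2 + h i : ℕ) : ℝ))⁻¹

theorem s_lt (a b : ℕ) (ha : 1 ≤ a) (hab : a < b) : s a < s b := by
  have h1 := Pool.Agent.U918.LP.pr_lt a b ha hab
  have h2 := Pool.Agent.U918.LP.pr_ge a ha
  exact Pool.Agent.U918.LP.pr_lt (Pool.Agent.U918.LP.pr a) (Pool.Agent.U918.LP.pr b) (by omega) h1

theorem s_ge (m : ℕ) (hm : 1 ≤ m) : m ≤ s m := by
  have h1 := Pool.Agent.U918.LP.pr_ge m hm
  have h2 := Pool.Agent.U918.LP.pr_ge (Pool.Agent.U918.LP.pr m) (by omega)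
  have h3 : s m = Pool.Agent.U918.LP.pr (Pool.Agent.U918.LP.pr m) := rfl
  omega

open Classical in
/-- **The theorem.** For all `r`, `B`, `U`, `D`, `K` there is `B₀` such that for every `E`, every large `X`, every
integer `z` with `log ^ B₀ X ≤ z ≤ log ^ E X` and EVERY weight `w` with `|w m| ≤ 1`: for all but at most
`X ^ (2 r) / log ^ U X` of the vectors `h` of integers `1 ≤ h i ≤ B X²`, one has for all `y ≤ X`, all moduli
`1 ≤ q ≤ log ^ K X` and all classes `a` that `primeSum w h q a y` and `modelSum z w h q a y` differ by at most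
`X / log ^ D X`. -/
theorem result (r B U D K : ℕ) :
    ∃ B₀ : ℕ, ∀ E : ℕ, ∃ X₀ : ℕ, ∀ X : ℕ, X₀ ≤ X → ∀ z : ℕ, Real.log X ^ B₀ ≤ z → (z : ℝ) ≤ Real.log X ^ E →
    ∀ w : ℕ → ℝ, (∀ m, |w m| ≤ 1) →
    (((Fintype.piFinset (fun _ : Fin r => Icc 1 (B * X ^ 2))).filter (fun h =>
      ∃ y ≤ X, ∃ q a : ℕ, 1 ≤ q ∧ (q : ℝ) ≤ Real.log X ^ K ∧
        (X : ℝ) / Real.log X ^ D < |primeSum w h q a y - modelSum z w h q a y|)).card : ℝ) ≤
      (X : ℝ) ^ (2 * r) / Real.log X ^ U := by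
  have hdeg : (Polynomial.X ^ 2 : Polynomial ℤ).natDegree = 2 := by compute_degree!
  obtain ⟨B₀, h0⟩ := Pool.Agent.U918.LP.core r (fun _ => (Polynomial.X ^ 2 : Polynomial ℤ))
    (fun _ => by rw [hdeg]; norm_num) (fun _ => by rw [Polynomial.leadingCoeff, hdeg]; simp)
    (fun _ m => m ^ 2) (fun _ m => by simp) (fun _ u v huv => Nat.pow_le_pow_left huv 2) (fun _ => true) B U D K
  refine ⟨B₀, fun E => ?_⟩
  obtain ⟨x0, hx0⟩ := h0 E
  refine ⟨x0, fun X hX z hz1 hz2 w hw => ?_⟩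
  have key := hx0 X hX z hz1 hz2 (Pool.Agent.U918.LP.tw s w) (Pool.Agent.U918.LP.tw_le s s_lt w hw)
  simp only [hdeg] at key
  rw [prod_const, card_univ, Fintype.card_fin, ← pow_mul] at key
  refine le_trans (le_of_eq ?_) key
  have ev : ∀ n h : ℕ, Pool.Agent.U918.LP.va true (fun m => m ^ 2) n h = n ^ 2 + h := fun n h => rfl
  have e1 : ∀ (h : Fin r → ℕ) (q a y : ℕ), primeSum w h q a y = Pool.Agent.U918.LP.PS (fun _ : Fin r => true)
      (fun _ m => m ^ 2) (Pool.Agent.U918.LP.tw s w) h q a y := by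
    intro h q a y
    unfold primeSum Pool.Agent.U918.LP.PS
    simp only [ev]
    have := Pool.Agent.U918.LP.transport s s_ge w (fun n => n ≡ a [MOD q] ∧ ∀ i, (n ^ 2 + h i).Prime) (fun _ => 1) y
    simp only [mul_one] at this
    convert this
  have e2 : ∀ (h : Fin r → ℕ) (q a y : ℕ), modelSum z w h q a y = Pool.Agent.U918.LP.MS (fun _ : Fin r => true)
      (fun _ m => m ^ 2) z (Pool.Agent.U918.LP.tw s w) h q a y := by
    intro h q a y
    unfold modelSum Pool.Agent.U918.LP.MS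
    simp only [ev]
    have := Pool.Agent.U918.LP.transport s s_ge w
      (fun n => n ≡ a [MOD q] ∧ ∀ i, ∀ l : ℕ, l.Prime → l ≤ z → ¬ l ∣ n ^ 2 + h i)
      (fun n => ∏ i, (V z * Real.log ((n ^ 2 + h i : ℕ) : ℝ))⁻¹) y
    have hV : Pool.Agent.H373R2.T7.Vz z = V z := rfl
    rw [hV]
    convert this
  simp only [e1, e2]

end Pool.Agent.Results.MP_04ff0f_nt.ArbitraryWeights
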