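import Mathlib
import Pool.Agent.U958.SM.Main

set_option autoImplicit false

/-!
# `n = k + m` with `p_k² - 2`, `p_m² - 2`, `p_{p_m}² - 2` prime, in sequential random models of the primes

The question is whether every `n > 1` is `k + m` with `p_k² - 2`, `p_m² - 2`, `p_{p_m}² - 2` prime.  We show that
this holds for all large `n`, with at least half of the expected number of representations, in EVERY sequential
random model of the primes in which a finite set `Q` of primes is sieved out, where `2` is not a square modulo the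
odd primes of `Q` (so that the condition modulo the primes of `Q` is void): the integers are decided one after the
other, no integer divisible by a prime of `Q` is chosen, and the conditional probability of choosing `n + 1` (not
divisible by a prime of `Q`) given the past, times `log n`, tends to `∏_{q ∈ Q} (1 - 1/q)⁻¹`.  No independence and
no rate is assumed; `Q = ∅` includes Cramér's model.  The prime `p_j` is the `j`-th chosen number here, so all
positions are random and `p_{p_m}` depends on the choices between `p_m` and `p_{p_m}`.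

Proof.  Exponential supermartingales for sums over predictable random sets of integers give laws of large numbers
for countably many families of such sets at once, with an error `O(log n)` (Borel-Cantelli).  They are applied
three times: to the set of the `p_k² - 2`; to the `p_m² - 2`, `m > n/2`, for which `p_{n-m}² - 2` has been chosen;
and to the `p_{p_m}² - 2`, `m > n/2`, for which `p_{n-m}² - 2` and `p_m² - 2` have been chosen.
-/

open MeasureTheory Filter
open scoped Topology

namespace Pool.Agent.Results.MP_04ff0f_nt.SequentialModels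

/-- A sequential random model of the primes with the finite set `Q` of sieving primes.  `S n` is the event that
`n` is chosen; it is adapted to the filtration `ℱ`; no `n` divisible by a prime of `Q` is chosen; almost surely
the conditional probability of `S (n + 1)` given `ℱ n`, times `log n`, tends to `∏_{q ∈ Q} (1 - 1/q)⁻¹` along
the `n` for which `n + 1` is not divisible by a prime of `Q`. -/
structure Model {Ω : Type} [mΩ : MeasurableSpace Ω] (μ : Measure Ω) (ℱ : Filtration ℕ mΩ)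
    (S : ℕ → Set Ω) (Q : Finset ℕ) : Prop where
  adapted : ∀ n, MeasurableSet[ℱ n] (S n)
  sieved : ∀ n, (∃ q ∈ Q, q ∣ n) → S n = ∅
  density : ∀ᵐ ω ∂μ, Tendsto (fun n : ℕ =>
    (μ[(S (n + 1)).indicator (fun _ => (1 : ℝ)) | ℱ n]) ω * Real.log n)
    (atTop ⊓ 𝓟 {n : ℕ | ∀ q ∈ Q, ¬ q ∣ n + 1}) (𝓝 (∏ q ∈ Q, (1 - 1 / (q : ℝ))⁻¹))

/-- `p_m`, the `m`-th positive chosen number (`m ≥ 1`) -/
noncomputable def p {Ω : Type} (S : ℕ → Set Ω) (ω : Ω) (m : ℕ) : ℕ := Nat.nth (fun j => 1 ≤ j ∧ ω ∈ S j) (m - 1)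

/-- the `k` with `0 < k < n` for which, with `m = n - k`, the numbers `p_k² - 2`, `p_m² - 2`, `p_{p_m}² - 2` are
chosen (`p_k, p_m ≥ 2`) -/
def rep {Ω : Type} (S : ℕ → Set Ω) (ω : Ω) (n : ℕ) : Set ℕ :=
  {k | 0 < k ∧ k < n ∧ 2 ≤ p S ω k ∧ 2 ≤ p S ω (n - k) ∧ ω ∈ S (p S ω k ^ 2 - 2) ∧
    ω ∈ S (p S ω (n - k) ^ 2 - 2) ∧ ω ∈ S (p S ω (p S ω (n - k)) ^ 2 - 2)}

/-- **Representations `n = k + m` in sequential random models.**  Let `Q` be a finite set of primes such that `2` is
not a square modulo the odd primes of `Q`.  In every sequential random model of the primes with the sieving set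
`Q`, almost surely:

(1) for every `ε > 0` and all large `n` there are at least
`(1 - ε) (1/16) (∏_{q ∈ Q} (1 - 1/q)⁻¹) ^ 3 n / (log n) ^ 3` integers `0 < k < n` for which, with `m = n - k`, the
numbers `p_k² - 2`, `p_m² - 2`, `p_{p_m}² - 2` are chosen, where `p_j` is the `j`-th positive chosen number;

(2) all large `n` are `k + m` with `k, m > 0` and `p_k² - 2`, `p_m² - 2`, `p_{p_m}² - 2` chosen. -/
theorem result {Ω : Type} [mΩ : MeasurableSpace Ω] (μ : Measure Ω) [IsProbabilityMeasure μ]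
    (ℱ : Filtration ℕ mΩ) (S : ℕ → Set Ω) (Q : Finset ℕ) (hQ : ∀ q ∈ Q, q.Prime)
    (hQ2 : ∀ q ∈ Q, q = 2 ∨ ¬ IsSquare (2 : ZMod q)) (hM : Model μ ℱ S Q) :
    ∀ᵐ ω ∂μ,
      (∀ ε : ℝ, 0 < ε → ∀ᶠ n : ℕ in atTop,
        (1 - ε) * ((∏ q ∈ Q, (1 - 1 / (q : ℝ))⁻¹) ^ 3 / 16 * (n / Real.log n ^ 3)) ≤ ((rep S ω n).ncard : ℝ)) ∧
      ∀ᶠ n : ℕ in atTop, ∃ k m : ℕ, 0 < k ∧ 0 < m ∧ k + m = n ∧ 2 ≤ p S ω k ∧ 2 ≤ p S ω m ∧
        ω ∈ S (p S ω k ^ 2 - 2) ∧ ω ∈ S (p S ω m ^ 2 - 2) ∧ ω ∈ S (p S ω (p S ω m) ^ 2 - 2) := by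
  classical
  have hW := Pool.Agent.U958.PF.WQ_pos Q hQ
  have hcop : ∀ n, ¬ Pool.Agent.U958.PF.Free Q n → S n = ∅ := by
    intro n hn
    apply hM.sieved
    unfold Pool.Agent.U958.PF.Free at hn
    push Not at hn
    exact hn
  have h1 := Pool.Agent.U958.SM.nice (μ := μ) hM.adapted Q hQ hQ2 hcop hM.density
  filter_upwards [h1] with ω hω
  have hp : ∀ m, p S ω m = Pool.Agent.U958.SM.qn S ω m := fun m => rfl
  have hfin : ∀ n, (rep S ω n).Finite := fun n => (Set.finite_Iio n).subset fun k hk => hk.2.1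
  have hmain : ∀ ε : ℝ, 0 < ε → ∀ᶠ n : ℕ in atTop,
        (1 - ε) * ((∏ q ∈ Q, (1 - 1 / (q : ℝ))⁻¹) ^ 3 / 16 * (n / Real.log n ^ 3)) ≤ ((rep S ω n).ncard : ℝ) := by
    intro ε hε
    filter_upwards [Pool.Agent.U958.SM.chain hW hω ε hε] with n hn
    refine le_trans hn ?_
    have hsub : (((((Pool.Agent.U958.SM.KB S ω n).filter
        (fun m => ω ∈ S (Pool.Agent.U958.SM.uB S ω m))).image (fun m => n - m) : Finset ℕ)) : Set ℕ) ⊆ rep S ω n := by
      intro k hk
      obtain ⟨m, hm, rfl⟩ := Finset.mem_image.1 (Finset.mem_coe.1 hk)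
      obtain ⟨hm1, hm2⟩ := Finset.mem_filter.1 hm
      obtain ⟨hm3, hm4, hm5⟩ := Finset.mem_filter.1 hm1
      obtain ⟨g1, g2, g3, g4, g5, g6, g7⟩ := Pool.Agent.U958.SM.KA_prop hω.inf hm3
      have e : n - (n - m) = m := by omega
      show 0 < n - m ∧ n - m < n ∧ 2 ≤ p S ω (n - m) ∧ 2 ≤ p S ω (n - (n - m)) ∧ _
      rw [e]
      refine ⟨by omega, by omega, ?_, ?_, g6.2.2, hm4, hm2⟩
      · rw [hp]
        have := g6.2.1
        omega
      · rw [hp]
        omega
    have hinj : Set.InjOn (fun m => n - m) (((Pool.Agent.U958.SM.KB S ω n).filter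
        (fun m => ω ∈ S (Pool.Agent.U958.SM.uB S ω m)) : Finset ℕ) : Set ℕ) := by
      intro a ha b hb hab
      have ha' := (Pool.Agent.U958.SM.KA_prop hω.inf (Finset.mem_filter.1 (Finset.mem_filter.1
        (Finset.mem_coe.1 ha)).1).1).1
      have hb' := (Pool.Agent.U958.SM.KA_prop hω.inf (Finset.mem_filter.1 (Finset.mem_filter.1
        (Finset.mem_coe.1 hb)).1).1).1
      simp only at hab
      omega
    have h2 := Set.ncard_le_ncard hsub (hfin n)
    rw [Set.ncard_coe_finset, Finset.card_image_of_injOn hinj] at h2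
    exact_mod_cast h2
  refine ⟨hmain, ?_⟩
  have hlim : Tendsto (fun n : ℕ => (n : ℝ) / Real.log n ^ 3) atTop atTop := by
    have h2 := Pool.Agent.U958.SM.logpow_div 3
    have h3 : Tendsto (fun n : ℕ => Real.log n ^ 3 / (n : ℝ)) atTop (𝓝[>] 0) := by
      refine tendsto_nhdsWithin_iff.2 ⟨h2, ?_⟩
      filter_upwards [Pool.Agent.U958.PF.logN.eventually_gt_atTop 0, eventually_gt_atTop 0] with n h4 h5
      have : (0 : ℝ) < n := by exact_mod_cast h5
      exact Set.mem_Ioi.2 (by positivity)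
    refine h3.inv_tendsto_nhdsGT_zero.congr fun n => ?_
    simp
  filter_upwards [hmain (1 / 2) (by norm_num), hlim.eventually_gt_atTop 0] with n h2 h3
  have h4 : 0 < (1 - 1 / 2 : ℝ) * ((∏ q ∈ Q, (1 - 1 / (q : ℝ))⁻¹) ^ 3 / 16 * (n / Real.log n ^ 3)) := by
    have : 0 < ∏ q ∈ Q, (1 - 1 / (q : ℝ))⁻¹ := hW
    positivity
  have h5 : (0 : ℝ) < ((rep S ω n).ncard : ℝ) := lt_of_lt_of_le h4 h2
  have h6 : 0 < (rep S ω n).ncard := by exact_mod_cast h5
  obtain ⟨k, g1, g2, g3, g4, g5, g6, g7⟩ := (Set.ncard_pos (hfin n)).1 h6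
  exact ⟨k, n - k, g1, by omega, by omega, g3, g4, g5, g6, g7⟩

end Pool.Agent.Results.MP_04ff0f_nt.SequentialModels
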