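import Pool.Agent.U918.IS.Iter

/-!
# Representations `n = k + m` with conditions on the squares of `p_k`, `p_m`, `p_{p_m}` and of all
# other iterated primes, shifted by independent multiples of a small primorial

The question asks for `n = k + m` with `p_k² - 2`, `p_m² - 2`, `p_{p_m}² - 2` prime. Here the three
numbers `-2` are replaced by independent shifts: let `n` be large, `M` the product of the primes
`≤ y`, where `y` is comparable to `log log n` (so `M` is a power of `log n`), and let `K` be an
arbitrary set of at least `n / log ^ A n` integers `0 < k < n`. For almost all triples of multiples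
`h₁, h₂, h₃` of `M` in arbitrary windows of length at least `n² / log ^ C n` below `n²` the three
numbers `p_k² + h₁`, `p_m² + h₂`, `p_{p_m}² + h₃`, `m = n - k`, are all prime for at least
`(1 - ε)` times the expected number `#K / (2 V log n)³` of the `k ∈ K`, `V = ∏_{q ≤ y} (1 - 1/q)`.

More generally any finite number of conditions is allowed: the numbers `q + h` and `q² + h`, where
`q` runs through the iterated primes `p_k`, `p_{p_k}`, … and `p_m`, `p_{p_m}`, ….
-/

set_option autoImplicit false

open Finset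

namespace Pool.Agent.Results.MP_04ff0f_nt.SquareShifts

/-- the `k`-th prime, `p 1 = 2` -/
noncomputable def p (k : ℕ) : ℕ := Nat.nth Nat.Prime (k - 1)

/-- the product of `1 - 1/q` over the primes `q ≤ y` -/
noncomputable def V (y : ℕ) : ℝ := ∏ q ∈ (Icc 1 y).filter Nat.Prime, (1 - 1 / (q : ℝ))

/-- A condition: for `⟨a, b, e⟩` the number in question is `q ^ e + h`, where `q` is the `a`-fold
iterated prime `p (p (⋯ (p x)))` of `x = k` (if `b = false`) or of `x = m = n - k` (if `b = true`). -/
structure Condition where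
  a : ℕ
  b : Bool
  e : ℕ

/-- the number of a condition without its shift -/
noncomputable def Condition.num (c : Condition) (n k : ℕ) : ℕ :=
  (p^[c.a] (if c.b then n - k else k)) ^ c.e

/-- the `k ∈ K` such that all the numbers of the conditions, shifted by `h s`, are prime -/
noncomputable def Good {r : ℕ} (c : Fin r → Condition) (n : ℕ) (K : Finset ℕ) (h : Fin r → ℕ) :
    Finset ℕ :=
  open Classical in K.filter (fun k => ∀ s, ((c s).num n k + h s).Prime)

/-- **The theorem.** Finitely many conditions, with exponents `1` or `2`. For all `A`, `C`,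
`0 < ε ≤ 1` there is `K₀` such that for every `K₁`, every large `n`, every `y` between
`K₀ log log n` and `K₁ log log n`, with `M` the product of the primes `≤ y`, for all windows
`(g₀ s, g₀ s + G s]` with `M (g₀ s + G s) ≤ n ^ e_s` and `n ^ e_s ≤ M (G s) log ^ C n`, and for every
set `K` of at least `n / log ^ A n` integers `0 < k < n`: for all but at most `ε ∏ G s` of the
vectors `g`, `1 ≤ g s ≤ G s`, the numbers of all conditions, shifted by `M (g₀ s + g s)`, are prime
for at least `(1 - ε) #K / ∏ (e_s V y log n)` elements `k` of `K`. -/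
theorem result (r : ℕ) (c : Fin r → Condition) (ha : ∀ s, 1 ≤ (c s).a)
    (he : ∀ s, (c s).e = 1 ∨ (c s).e = 2) (A C : ℕ) (ε : ℝ) (hε : 0 < ε) (hε1 : ε ≤ 1) :
    ∃ K₀ : ℕ, ∀ K₁ : ℕ, ∃ n₀ : ℕ, ∀ n : ℕ, n₀ ≤ n →
    ∀ y : ℕ, K₀ * Real.log (Real.log n) ≤ y → y ≤ K₁ * Real.log (Real.log n) →
    ∀ g₀ G : Fin r → ℕ, (∀ s, primorial y * (g₀ s + G s) ≤ n ^ (c s).e) →
    (∀ s, (n : ℝ) ^ (c s).e ≤ primorial y * G s * Real.log n ^ C) →
    ∀ K : Finset ℕ, K ⊆ Ioo 0 n → (n : ℝ) ≤ K.card * Real.log n ^ A →
      (((Fintype.piFinset (fun s => Icc 1 (G s))).filter (fun g =>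
        ((Good c n K (fun s => primorial y * (g₀ s + g s))).card : ℝ) <
        (1 - ε) * (K.card / ∏ s, ((c s).e * (V y * Real.log n))))).card : ℝ) ≤
      ε * ∏ s, (G s : ℝ) := by
  obtain ⟨K₀, hK₀⟩ := Pool.Agent.U918.IS.main r (fun s => (c s).a) (fun s => (c s).b)
    (fun s => (c s).e) ha he A C ε hε hε1
  refine ⟨K₀, fun K₁ => ?_⟩
  obtain ⟨n₀, hn₀⟩ := hK₀ K₁
  refine ⟨n₀, fun n hn y hy1 hy2 g₀ G a1 a2 K hK hKc => ?_⟩
  refine le_trans (le_of_eq ?_) (hn₀ n hn y hy1 hy2 g₀ G a1 a2 K hK hKc)
  congr 2
  apply filter_congr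
  intro g _
  have h1 : ∏ s, (((c s).e : ℝ) * (V y * Real.log n)) =
      ∏ s, (Pool.Agent.H373R2.T7.Vz y * ((c s).e * Real.log n)) := by
    apply prod_congr rfl
    intro s _
    rw [show Pool.Agent.H373R2.T7.Vz y = V y from rfl]
    ring
  rw [h1]
  rfl


end Pool.Agent.Results.MP_04ff0f_nt.SquareShifts
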